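import Pool.Agent.Q212.NU4

/-!
# A well-ordered notion of forcing with the countable chain condition that is not uniformly narrow

There is a countable transitive model `M` of ZF that contains a notion of forcing `(A, R)` whose
underlying set `A` is a set of ordinals, that has in `M` no antichain of cardinality `ℵ₁`, and
that is not uniformly `ω`-narrow in `M`.
-/

set_option autoImplicit false

namespace Pool.Agent.Results.MP_637f9c_lc.CccNotUniformlyNarrow

open Pool.Agent.W868 Pool.Agent.Q212.NU

theorem result : ∃ M : Set ZFSet.{0}, M.Countable ∧ IsZF M ∧ ∃ κ, IsAleph1 M κ ∧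
    ∃ A ∈ M, ∃ R ∈ M, (∀ p ∈ A, p.IsOrdinal) ∧ IsForcing A R ∧ ¬ HasAntichain M A R κ ∧
      ¬ UNarrow M A R := main

end Pool.Agent.Results.MP_637f9c_lc.CccNotUniformlyNarrow
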